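import Pool.Agent.W538.Tor.Defs

/-! Calculus for maps of the plane to Euclidean three-space. -/

open Real MeasureTheory Set Filter Topology
open scoped RealInnerProductSpace ContDiff ENNReal

noncomputable section
namespace Pool.Agent.W538.Tor

section pd
variable {V : Type*} [NormedAddCommGroup V] [NormedSpace ℝ V]

/-- derivative in the direction `w`. -/
def pd (w : ℝ × ℝ) (F : ℝ × ℝ → V) (p : ℝ × ℝ) : V := fderiv ℝ F p w

lemma contDiff_pd {n m : WithTop ℕ∞} {F : ℝ × ℝ → V} (hF : ContDiff ℝ m F) (h : n + 1 ≤ m)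
    (w : ℝ × ℝ) : ContDiff ℝ n (pd w F) :=
  (hF.fderiv_right h).clm_apply contDiff_const

lemma pd_comm {F : ℝ × ℝ → V} (hF : ContDiff ℝ 2 F) (u w p : ℝ × ℝ) :
    pd u (pd w F) p = pd w (pd u F) p := by
  have hs : IsSymmSndFDerivAt ℝ F p := hF.contDiffAt.isSymmSndFDerivAt (by simp)
  have hd : DifferentiableAt ℝ (fderiv ℝ F) p :=
    ((hF.fderiv_right (m := 1) (by norm_num)).differentiable (by simp)) p
  have h (u w : ℝ × ℝ) : pd u (pd w F) p = fderiv ℝ (fderiv ℝ F) p u w := by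
    unfold pd
    rw [fderiv_clm_apply hd (differentiableAt_const w)]
    simp
  rw [h, h, hs.eq]

end pd

section inner
variable {V : Type*} [NormedAddCommGroup V] [InnerProductSpace ℝ V]

lemma pd_inner {A B : ℝ × ℝ → V} {p : ℝ × ℝ} (hA : DifferentiableAt ℝ A p)
    (hB : DifferentiableAt ℝ B p) (w : ℝ × ℝ) :
    pd w (fun q => ⟪A q, B q⟫) p = ⟪A p, pd w B p⟫ + ⟪pd w A p, B p⟫ := by
  unfold pd
  rw [fderiv_inner_apply ℝ hA hB]

end inner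

/-- the cross product. -/
def crs (u v : E3) : E3 :=
  !₂[u 1 * v 2 - u 2 * v 1, u 2 * v 0 - u 0 * v 2, u 0 * v 1 - u 1 * v 0]

lemma inner3 (u v : E3) : ⟪u, v⟫ = u 0 * v 0 + u 1 * v 1 + u 2 * v 2 := by
  simp [PiLp.inner_apply, Fin.sum_univ_three]
  ring

lemma crs_left (u v : E3) : ⟪crs u v, u⟫ = 0 := by
  simp [inner3, crs]; ring

lemma crs_right (u v : E3) : ⟪crs u v, v⟫ = 0 := by
  simp [inner3, crs]; ring

lemma crs_self (u v : E3) : ⟪crs u v, crs u v⟫ = ⟪u, u⟫ * ⟪v, v⟫ - ⟪u, v⟫ ^ 2 := by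
  rw [inner3 (crs u v), inner3 u u, inner3 v v, inner3 u v]
  simp [crs]; ring

lemma contDiff_crs {n : WithTop ℕ∞} {X : Type*} [NormedAddCommGroup X] [NormedSpace ℝ X]
    {A B : X → E3} (hA : ContDiff ℝ n A) (hB : ContDiff ℝ n B) :
    ContDiff ℝ n (fun p => crs (A p) (B p)) := by
  rw [contDiff_euclidean] at *
  intro i
  fin_cases i <;> simp [crs]
  · exact ((hA 1).mul (hB 2)).sub ((hA 2).mul (hB 1))
  · exact ((hA 2).mul (hB 0)).sub ((hA 0).mul (hB 2))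
  · exact ((hA 0).mul (hB 1)).sub ((hA 1).mul (hB 0))

/-- expansion in an orthogonal basis. -/
lemma expand {u v n : E3} {e g : ℝ} (he : 0 < e) (hg : 0 < g) (hu : ⟪u, u⟫ = e) (hv : ⟪v, v⟫ = g)
    (huv : ⟪u, v⟫ = 0) (hn : ⟪n, n⟫ = 1) (hnu : ⟪n, u⟫ = 0) (hnv : ⟪n, v⟫ = 0) (x y : E3) :
    ⟪x, y⟫ = ⟪x, u⟫ * ⟪y, u⟫ / e + ⟪x, v⟫ * ⟪y, v⟫ / g + ⟪x, n⟫ * ⟪y, n⟫ := by
  have hse := Real.mul_self_sqrt he.le
  have hsg := Real.mul_self_sqrt hg.le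
  have hse0 : √e ≠ 0 := (Real.sqrt_pos.2 he).ne'
  have hsg0 : √g ≠ 0 := (Real.sqrt_pos.2 hg).ne'
  let w : Fin 3 → E3 := ![(1 / √e) • u, (1 / √g) • v, n]
  have hw : Orthonormal ℝ w := by
    rw [orthonormal_iff_ite]
    intro i j
    have hvu : ⟪v, u⟫ = 0 := by rw [real_inner_comm]; exact huv
    have hun : ⟪u, n⟫ = 0 := by rw [real_inner_comm]; exact hnu
    have hvn : ⟪v, n⟫ = 0 := by rw [real_inner_comm]; exact hnv
    fin_cases i <;> fin_cases j <;>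
      simp only [w, Fin.zero_eta, Fin.isValue, Fin.mk_one, Fin.reduceFinMk, Matrix.cons_val,
        real_inner_smul_left, real_inner_smul_right, Fin.reduceEq, hu, hv, huv,
        hn, hnu, hnv, hvu, hun, hvn, mul_zero, ↓reduceIte, one_ne_zero, zero_ne_one]
    · field_simp
      linarith
    · field_simp
      linarith
  let B : OrthonormalBasis (Fin 3) ℝ E3 := OrthonormalBasis.mk hw (by
    have := hw.linearIndependent.span_eq_top_of_card_eq_finrank (by simp)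
    rw [this])
  have hB := B.sum_inner_mul_inner x y
  rw [Fin.sum_univ_three] at hB
  simp only [B, OrthonormalBasis.coe_mk, w, Matrix.cons_val, real_inner_smul_left,
    real_inner_smul_right] at hB
  rw [← hB, real_inner_comm y u, real_inner_comm y v, real_inner_comm y n]
  field_simp
  rw [Real.sq_sqrt he.le, Real.sq_sqrt hg.le]
  try ring

/-- the square of the determinant is the Gram determinant. -/
lemma det_sq (A : E3 →L[ℝ] E3) (x y z : E3) (hx : A (EuclideanSpace.single 0 1) = x)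
    (hy : A (EuclideanSpace.single 1 1) = y) (hz : A (EuclideanSpace.single 2 1) = z)
    (hxx : ⟪x, x⟫ = 1) (hxy : ⟪x, y⟫ = 0) (hxz : ⟪x, z⟫ = 0) :
    A.det ^ 2 = ⟪y, y⟫ * ⟪z, z⟫ - ⟪y, z⟫ ^ 2 := by
  let b := (EuclideanSpace.basisFun (Fin 3) ℝ).toBasis
  have h : A.det = (LinearMap.toMatrix b b (A : E3 →ₗ[ℝ] E3)).det := by
    rw [LinearMap.det_toMatrix]
  have he (i j : Fin 3) : LinearMap.toMatrix b b (A : E3 →ₗ[ℝ] E3) i j =
      A (EuclideanSpace.single j 1) i := by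
    rw [LinearMap.toMatrix_apply]
    simp [b]
  rw [h, Matrix.det_fin_three]
  simp only [he, hx, hy, hz]
  have e : (x 0 * y 1 * z 2 - x 0 * z 1 * y 2 - y 0 * x 1 * z 2 + y 0 * z 1 * x 2 +
      z 0 * x 1 * y 2 - z 0 * y 1 * x 2) ^ 2 = ⟪x, x⟫ * (⟪y, y⟫ * ⟪z, z⟫ - ⟪y, z⟫ ^ 2)
      - ⟪x, y⟫ * (⟪x, y⟫ * ⟪z, z⟫ - ⟪y, z⟫ * ⟪x, z⟫) + ⟪x, z⟫ * (⟪x, y⟫ * ⟪y, z⟫ -
        ⟪y, y⟫ * ⟪x, z⟫) := by
    simp only [inner3]
    ring
  rw [hxx, hxy, hxz] at e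
  rw [show ⟪y, y⟫ * ⟪z, z⟫ - ⟪y, z⟫ ^ 2 = 1 * (⟪y, y⟫ * ⟪z, z⟫ - ⟪y, z⟫ ^ 2)
      - 0 * (0 * ⟪z, z⟫ - ⟪y, z⟫ * 0) + 0 * (0 * ⟪y, z⟫ - ⟪y, y⟫ * 0) by ring, ← e]

end Pool.Agent.W538.Tor
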