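import Pool.Agent.W538.Tor.Curv

/-! A doubly periodic map inducing `b² ds² + c² (a + b cos s)² dt²` with `c < 1` does not exist:
the Gauss map restricted to the region of non-negative curvature would cover the sphere. -/

open Real MeasureTheory Set Filter Topology
open scoped RealInnerProductSpace ContDiff ENNReal

noncomputable section
namespace Pool.Agent.W538.Tor

lemma pd_pd {V : Type*} [NormedAddCommGroup V] [NormedSpace ℝ V] {F : ℝ × ℝ → V}
    (hF : ContDiff ℝ 2 F) (u w p : ℝ × ℝ) : pd u (pd w F) p = fderiv ℝ (fderiv ℝ F) p u w := by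
  have hd : DifferentiableAt ℝ (fderiv ℝ F) p :=
    ((hF.fderiv_right (m := 1) (by norm_num)).differentiable (by simp)) p
  have e : fderiv ℝ (fun q => fderiv ℝ F q w) p = (fderiv ℝ (fderiv ℝ F) p).flip w := by
    rw [fderiv_clm_apply hd (differentiableAt_const w)]
    simp
  change fderiv ℝ (fun q => fderiv ℝ F q w) p u = _
  rw [e]
  rfl

lemma second_order {φ : ℝ × ℝ → ℝ} (hφ : ContDiff ℝ 2 φ) {p : ℝ × ℝ} (hmax : ∀ q, φ q ≤ φ p)
    (w : ℝ × ℝ) : pd w φ p = 0 ∧ pd w (pd w φ) p ≤ 0 := by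
  have hline (ψ : ℝ × ℝ → ℝ) (hψ : ContDiff ℝ 1 ψ) (t : ℝ) :
      HasDerivAt (fun t : ℝ => ψ (p + t • w)) (pd w ψ (p + t • w)) t := by
    have h1 : HasDerivAt (fun t : ℝ => p + t • w) ((1 : ℝ) • w) t :=
      ((hasDerivAt_id t).smul_const w).const_add p
    rw [one_smul] at h1
    exact (hψ.differentiable (by simp) (p + t • w)).hasFDerivAt.comp_hasDerivAt t h1
  have hd1 := hline φ (hφ.of_le (by norm_num))
  have hd2 := hline (pd w φ) (contDiff_pd hφ (by norm_num) w)
  set u : ℝ → ℝ := fun t => φ (p + t • w) with hu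
  have hu1 : deriv u = fun t => pd w φ (p + t • w) := funext fun t => (hd1 t).deriv
  have hu2 : deriv (deriv u) 0 = pd w (pd w φ) p := by
    rw [hu1, (hd2 0).deriv]
    simp
  have hmax0 : IsLocalMax u 0 := Eventually.of_forall fun t => by
    simp only [hu, zero_smul, add_zero]
    exact hmax _
  have h0 : deriv u 0 = 0 := hmax0.deriv_eq_zero
  have h1 : pd w φ p = 0 := by
    rw [hu1] at h0
    simpa using h0
  refine ⟨h1, ?_⟩
  by_contra hneg
  push Not at hneg
  have hmin : IsLocalMin u 0 := isLocalMin_of_deriv_deriv_pos (by rw [hu2]; exact hneg) h0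
    (hd1 0).continuousAt
  have hc : u =ᶠ[𝓝 0] fun _ => u 0 := by
    filter_upwards [hmin, hmax0] with t h1 h2
    exact le_antisymm h2 h1
  have : deriv (deriv u) 0 = 0 := by
    have h2 : deriv u =ᶠ[𝓝 0] fun _ => 0 := by
      have := hc.deriv
      simpa using this
    rw [h2.deriv_eq]
    simp
  linarith

lemma quad {P Q R : ℝ} (h : ∀ x y : ℝ, x ^ 2 * P + 2 * (x * y * Q) + y ^ 2 * R ≤ 0) :
    P ≤ 0 ∧ Q ^ 2 ≤ P * R := by
  have hP : P ≤ 0 := by simpa using h 1 0
  refine ⟨hP, ?_⟩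
  rcases hP.lt_or_eq with hP | hP
  · have := h (-Q) P
    by_contra hneg
    push Not at hneg
    nlinarith
  · have h1 : Q = 0 := by
      by_contra hQ
      have := h ((1 - R) / (2 * Q)) 1
      have e : 2 * ((1 - R) / (2 * Q) * 1 * Q) = 1 - R := by field_simp
      rw [hP, e] at this
      linarith
    rw [hP, h1]
    norm_num

variable {a b c : ℝ} {F : ℝ × ℝ → E3}

namespace Iso
variable (h : Iso a b c F)
include h

/-- where the height in the direction `v` is maximal, `v` is the normal up to sign, and the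
curvature is nonnegative. -/
lemma of_max {v : E3} (hv : ‖v‖ = 1) {p : ℝ × ℝ} (hmax : ∀ q, ⟪F q, v⟫ ≤ ⟪F p, v⟫) :
    0 ≤ cos p.1 ∧
    ((v = nor a b c F p ∧ ⟪pd (1, 0) (pd (1, 0) F) p, nor a b c F p⟫ ≤ 0) ∨
    (v = - nor a b c F p ∧ 0 ≤ ⟪pd (1, 0) (pd (1, 0) F) p, nor a b c F p⟫)) := by
  have hF2 : ContDiff ℝ 2 F := h.smooth.of_le (by norm_num)
  have hφ : ContDiff ℝ 2 (fun q => ⟪F q, v⟫) := hF2.inner ℝ contDiff_const
  have hso := second_order hφ hmax
  have hp1 (w : ℝ × ℝ) : pd w (fun q => ⟪F q, v⟫) = fun q => ⟪pd w F q, v⟫ := by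
    funext q
    rw [pd_inner (hF2.differentiable (by simp) q) (differentiableAt_const v)]
    simp [pd]
  have hp2 (w : ℝ × ℝ) : pd w (fun q => ⟪pd w F q, v⟫) p = ⟪pd w (pd w F) p, v⟫ := by
    rw [pd_inner ((contDiff_pd hF2 (n := 1) (by norm_num) w).differentiable (by simp) p)
      (differentiableAt_const v)]
    simp [pd]
  simp only [hp1, hp2] at hso
  have hvS : ⟪v, pd (1, 0) F p⟫ = 0 := by rw [real_inner_comm]; exact (hso _).1
  have hvT : ⟪v, pd (0, 1) F p⟫ = 0 := by rw [real_inner_comm]; exact (hso _).1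
  have hx (x y : E3) := expand (pow_pos h.b_pos 2) (pow_pos (h.ch_pos p.1) 2) (h.ss p) (h.tt p)
    (h.st p) (h.nn p) (nS p) (nT p) x y
  have hvv : ⟪v, nor a b c F p⟫ * ⟪v, nor a b c F p⟫ = 1 := by
    have := hx v v
    rw [hvS, hvT, real_inner_self_eq_norm_sq, hv] at this
    simp only [mul_zero, zero_div, zero_add, one_pow] at this
    exact this.symm
  have hveq : v = ⟪v, nor a b c F p⟫ • nor a b c F p := by
    apply ext_inner_right ℝ
    intro y
    rw [hx v y, hvS, hvT, real_inner_smul_left, real_inner_comm y (nor a b c F p)]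
    simp
  have hq : ∀ x y : ℝ, x ^ 2 * ⟪pd (1, 0) (pd (1, 0) F) p, v⟫ +
      2 * (x * y * ⟪pd (0, 1) (pd (1, 0) F) p, v⟫) +
      y ^ 2 * ⟪pd (0, 1) (pd (0, 1) F) p, v⟫ ≤ 0 := by
    intro x y
    have h1 := (hso (x, y)).2
    have e : pd (x, y) (pd (x, y) F) p = (x ^ 2) • pd (1, 0) (pd (1, 0) F) p +
        (2 * (x * y)) • pd (0, 1) (pd (1, 0) F) p + (y ^ 2) • pd (0, 1) (pd (0, 1) F) p := by
      have hxy : ((x, y) : ℝ × ℝ) = x • ((1 : ℝ), (0 : ℝ)) + y • ((0 : ℝ), (1 : ℝ)) := by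
        ext <;> simp
      have hs := h.sym p
      rw [pd_pd hF2, pd_pd hF2] at hs
      rw [pd_pd hF2, pd_pd hF2, pd_pd hF2, pd_pd hF2, hxy]
      simp only [map_add, map_smul, add_apply,
        smul_apply, smul_add, smul_smul]
      rw [hs]
      module
    rw [e] at h1
    simp only [inner_add_left, real_inner_smul_left] at h1
    linarith
  obtain ⟨hL, hdet⟩ := quad hq
  have hd := h.det_second p
  have hc0 : 0 ≤ cos p.1 := by
    rw [hveq] at hdet
    simp only [real_inner_smul_right] at hdet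
    have h1 : 0 ≤ c ^ 2 * b * cos p.1 * (a + b * cos p.1) := by
      rw [← hd]
      generalize ⟪v, nor a b c F p⟫ = κ at hvv hdet
      have hk : κ ^ 2 = 1 := by rw [sq]; exact hvv
      nlinarith
    have h2 := h.h_pos p.1
    have h3 : 0 < c ^ 2 * b := mul_pos (pow_pos h.c_pos 2) h.b_pos
    by_contra hneg
    push Not at hneg
    have : c ^ 2 * b * cos p.1 * (a + b * cos p.1) < 0 :=
      mul_neg_of_neg_of_pos (mul_neg_of_pos_of_neg h3 hneg) h2
    linarith
  refine ⟨hc0, ?_⟩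
  have hk : ⟪v, nor a b c F p⟫ = 1 ∨ ⟪v, nor a b c F p⟫ = -1 := by
    have : (⟪v, nor a b c F p⟫ - 1) * (⟪v, nor a b c F p⟫ + 1) = 0 := by linarith
    rcases mul_eq_zero.1 this with h | h
    · left; linarith
    · right; linarith
  rcases hk with hk | hk
  · left
    rw [hk, one_smul] at hveq
    exact ⟨hveq, by rw [← hveq]; exact hL⟩
  · right
    rw [hk, neg_one_smul] at hveq
    refine ⟨hveq, ?_⟩
    have : nor a b c F p = - v := by rw [hveq, neg_neg]
    rw [this, inner_neg_right]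
    linarith

/-- the cone over the Gauss map. -/
lemma exists_cover (h1 : ∀ p : ℝ × ℝ, F (p.1 + 2 * π, p.2) = F p)
    (h2 : ∀ p : ℝ × ℝ, F (p.1, p.2 + 2 * π) = F p) {v : E3} (hv : ‖v‖ = 1) :
    ∃ p : ℝ × ℝ, p.1 ∈ Icc (-(π / 2)) (π / 2) ∧ p.2 ∈ Icc 0 (2 * π) ∧
    ((v = nor a b c F p ∧ ⟪pd (1, 0) (pd (1, 0) F) p, nor a b c F p⟫ < 0) ∨
    (v = - nor a b c F p ∧ 0 < ⟪pd (1, 0) (pd (1, 0) F) p, nor a b c F p⟫) ∨
    (v = nor a b c F p ∧ cos p.1 = 0) ∨ (v = - nor a b c F p ∧ cos p.1 = 0)) := by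
  obtain ⟨p, hp, hpm⟩ := (isCompact_Icc.prod isCompact_Icc : IsCompact
    (Icc (-π) π ×ˢ Icc (0 : ℝ) (2 * π))).exists_isMaxOn ⟨(0, 0), by
      constructor <;> simp [Real.pi_pos.le]⟩
    (f := fun q => ⟪F q, v⟫) ((h.smooth.continuous.inner continuous_const).continuousOn)
  have hmax : ∀ q, ⟪F q, v⟫ ≤ ⟪F p, v⟫ := by
    rintro ⟨s, t⟩
    have hs : Function.Periodic (fun s => F (s, t)) (2 * π) := fun s => h1 (s, t)
    obtain ⟨s', hs', es⟩ := hs.exists_mem_Ico (by positivity) s (-π)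
    have ht : Function.Periodic (fun t => F (s', t)) (2 * π) := fun t => h2 (s', t)
    obtain ⟨t', ht', et⟩ := ht.exists_mem_Ico (by positivity) t 0
    have e : F (s, t) = F (s', t') := es.trans et
    rw [e]
    apply hpm
    constructor
    · exact ⟨hs'.1, by have := hs'.2; simp only at this ⊢; linarith⟩
    · exact ⟨ht'.1, by have := ht'.2; simp only at this ⊢; linarith⟩
  obtain ⟨hc, hcase⟩ := h.of_max hv hmax
  have hp1 : p.1 ∈ Icc (-(π / 2)) (π / 2) := by
    have hb1 : p.1 ∈ Icc (-π) π := hp.1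
    constructor
    · by_contra hneg
      push Not at hneg
      have := Real.cos_neg_of_pi_div_two_lt_of_lt (x := -p.1) (by linarith)
        (by linarith [hb1.1, Real.pi_pos])
      rw [Real.cos_neg] at this
      linarith
    · by_contra hneg
      push Not at hneg
      have := Real.cos_neg_of_pi_div_two_lt_of_lt (x := p.1) (by linarith)
        (by linarith [hb1.2, Real.pi_pos])
      linarith
  refine ⟨p, hp1, hp.2, ?_⟩
  have hd := h.det_second p
  have h3 : 0 < c ^ 2 * b := mul_pos (pow_pos h.c_pos 2) h.b_pos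
  have hh := h.h_pos p.1
  rcases hc.lt_or_eq with hc | hc
  · have hL : ⟪pd (1, 0) (pd (1, 0) F) p, nor a b c F p⟫ ≠ 0 := by
      intro h0
      rw [h0, zero_mul] at hd
      have : 0 < c ^ 2 * b * cos p.1 * (a + b * cos p.1) := by positivity
      nlinarith [sq_nonneg ⟪pd (0, 1) (pd (1, 0) F) p, nor a b c F p⟫]
    rcases hcase with ⟨h4, h5⟩ | ⟨h4, h5⟩
    · left; exact ⟨h4, lt_of_le_of_ne h5 hL⟩
    · right; left; exact ⟨h4, lt_of_le_of_ne h5 hL.symm⟩
  · rcases hcase with ⟨h4, h5⟩ | ⟨h4, h5⟩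
    · right; right; left; exact ⟨h4, hc.symm⟩
    · right; right; right; exact ⟨h4, hc.symm⟩

end Iso
end Pool.Agent.W538.Tor
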