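import Pool.Agent.W538.Tor.Calc

/-! The Gauss equation and the Gauss map for maps of the plane to three-space which induce the
metric `b² ds² + c² (a + b cos s)² dt²`. -/

open Real MeasureTheory Set Filter Topology
open scoped RealInnerProductSpace ContDiff ENNReal

noncomputable section
namespace Pool.Agent.W538.Tor

/-- A map of the plane of class `C³` inducing the metric `b² ds² + c² (a + b cos s)² dt²`. -/
structure Iso (a b c : ℝ) (F : ℝ × ℝ → E3) : Prop where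
  b_pos : 0 < b
  b_lt : b < a
  c_pos : 0 < c
  smooth : ContDiff ℝ 3 F
  ss : ∀ p, ⟪pd (1, 0) F p, pd (1, 0) F p⟫ = b ^ 2
  st : ∀ p, ⟪pd (1, 0) F p, pd (0, 1) F p⟫ = 0
  tt : ∀ p : ℝ × ℝ, ⟪pd (0, 1) F p, pd (0, 1) F p⟫ = (c * (a + b * cos p.1)) ^ 2

variable {a b c : ℝ} {F : ℝ × ℝ → E3}

/-- the unit normal. -/
def nor (a b c : ℝ) (F : ℝ × ℝ → E3) (p : ℝ × ℝ) : E3 :=
  (1 / (b * (c * (a + b * cos p.1)))) • crs (pd (1, 0) F p) (pd (0, 1) F p)

namespace Iso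
variable (h : Iso a b c F)
include h

lemma h_pos (s : ℝ) : 0 < a + b * cos s := by
  have := Real.neg_one_le_cos s
  nlinarith [h.b_pos, h.b_lt]

lemma ch_pos (s : ℝ) : 0 < c * (a + b * cos s) := mul_pos h.c_pos (h.h_pos s)

lemma contDiff_S : ContDiff ℝ 2 (pd (1, 0) F) := contDiff_pd h.smooth (by norm_num) _
lemma contDiff_T : ContDiff ℝ 2 (pd (0, 1) F) := contDiff_pd h.smooth (by norm_num) _

lemma contDiff_nor : ContDiff ℝ 2 (nor a b c F) := by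
  unfold nor
  have h1 : ContDiff ℝ 2 (fun p : ℝ × ℝ => 1 / (b * (c * (a + b * cos p.1)))) := by
    refine contDiff_const.div ?_ (fun p => (mul_pos h.b_pos (h.ch_pos p.1)).ne')
    fun_prop
  exact h1.smul (contDiff_crs h.contDiff_S h.contDiff_T)

lemma nn (p : ℝ × ℝ) : ⟪nor a b c F p, nor a b c F p⟫ = 1 := by
  have h1 := h.ch_pos p.1
  have h2 := h.b_pos
  rw [nor, real_inner_smul_left, real_inner_smul_right, crs_self, h.ss, h.tt, h.st]
  generalize c * (a + b * cos p.1) = k at h1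
  field_simp
  ring

omit h in
lemma nS (p : ℝ × ℝ) : ⟪nor a b c F p, pd (1, 0) F p⟫ = 0 := by
  rw [nor, real_inner_smul_left, crs_left, mul_zero]

omit h in
lemma nT (p : ℝ × ℝ) : ⟪nor a b c F p, pd (0, 1) F p⟫ = 0 := by
  rw [nor, real_inner_smul_left, crs_right, mul_zero]

lemma dS (p : ℝ × ℝ) : DifferentiableAt ℝ (pd (1, 0) F) p :=
  h.contDiff_S.differentiable (by simp) p
lemma dT (p : ℝ × ℝ) : DifferentiableAt ℝ (pd (0, 1) F) p :=
  h.contDiff_T.differentiable (by simp) p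
lemma dn (p : ℝ × ℝ) : DifferentiableAt ℝ (nor a b c F) p :=
  h.contDiff_nor.differentiable (by simp) p

omit h in
lemma pd_const' {f : ℝ × ℝ → ℝ} {k : ℝ} (hf : ∀ p, f p = k) (w p : ℝ × ℝ) : pd w f p = 0 := by
  have : f = fun _ => k := funext hf
  rw [this, pd]
  simp

lemma SdS (w p : ℝ × ℝ) : ⟪pd (1, 0) F p, pd w (pd (1, 0) F) p⟫ = 0 := by
  have h1 := pd_inner (h.dS p) (h.dS p) w
  rw [pd_const' h.ss, real_inner_comm (pd (1, 0) F p)] at h1
  linarith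

lemma SdT (w p : ℝ × ℝ) : ⟪pd (1, 0) F p, pd w (pd (0, 1) F) p⟫ +
    ⟪pd w (pd (1, 0) F) p, pd (0, 1) F p⟫ = 0 := by
  have h1 := pd_inner (h.dS p) (h.dT p) w
  rw [pd_const' h.st] at h1
  linarith

lemma sym (p : ℝ × ℝ) : pd (1, 0) (pd (0, 1) F) p = pd (0, 1) (pd (1, 0) F) p :=
  pd_comm (h.smooth.of_le (by norm_num)) _ _ _

lemma TdT (w p : ℝ × ℝ) : ⟪pd (0, 1) F p, pd w (pd (0, 1) F) p⟫ =
    - (c ^ 2 * (a + b * cos p.1) * (b * sin p.1) * w.1) := by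
  have h1 := pd_inner (h.dT p) (h.dT p) w
  have h2 : pd w (fun q => ⟪pd (0, 1) F q, pd (0, 1) F q⟫) p =
      2 * (c * (a + b * cos p.1)) * (c * (b * (- sin p.1 * w.1))) := by
    have : (fun q => ⟪pd (0, 1) F q, pd (0, 1) F q⟫) =
      fun q : ℝ × ℝ => (c * (a + b * cos q.1)) ^ 2 := funext h.tt
    rw [this, pd]
    have h0 : HasFDerivAt (fun q : ℝ × ℝ => cos q.1)
        ((- sin p.1) • ContinuousLinearMap.fst ℝ ℝ ℝ) p :=
      (hasFDerivAt_fst (𝕜 := ℝ) (E := ℝ) (F := ℝ) (p := p)).cos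
    have hd := (((h0.const_mul b).const_add a).const_mul c).pow 2
    rw [hd.fderiv]
    simp
  rw [h2, real_inner_comm (pd (0, 1) F p)] at h1
  linarith

lemma SsT (p : ℝ × ℝ) : ⟪pd (1, 0) (pd (1, 0) F) p, pd (0, 1) F p⟫ = 0 := by
  have h1 := h.SdT (1, 0) p
  rw [h.sym, h.SdS, zero_add] at h1
  exact h1

lemma StT (p : ℝ × ℝ) : ⟪pd (0, 1) (pd (1, 0) F) p, pd (0, 1) F p⟫ =
    - (c ^ 2 * (a + b * cos p.1) * (b * sin p.1)) := by
  rw [← h.sym, real_inner_comm, h.TdT]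
  simp

lemma STt (p : ℝ × ℝ) : ⟪pd (1, 0) F p, pd (0, 1) (pd (0, 1) F) p⟫ =
    c ^ 2 * (a + b * cos p.1) * (b * sin p.1) := by
  have h1 := h.SdT (0, 1) p
  rw [h.StT] at h1
  linarith

lemma contDiff_dS (w : ℝ × ℝ) : ContDiff ℝ 1 (pd w (pd (1, 0) F)) :=
  contDiff_pd h.contDiff_S (by norm_num) _
lemma contDiff_dT (w : ℝ × ℝ) : ContDiff ℝ 1 (pd w (pd (0, 1) F)) :=
  contDiff_pd h.contDiff_T (by norm_num) _

/-- the Gauss equation. -/
lemma gauss (p : ℝ × ℝ) : ⟪pd (1, 0) (pd (1, 0) F) p, pd (0, 1) (pd (0, 1) F) p⟫ -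
    ⟪pd (0, 1) (pd (1, 0) F) p, pd (0, 1) (pd (1, 0) F) p⟫ =
    c ^ 2 * b * (cos p.1 * (a + b * cos p.1) - b * sin p.1 ^ 2) := by
  have h1 := pd_inner (h.dS p) ((h.contDiff_dT (0, 1)).differentiable (by simp) p) (1, 0)
  have h2 := pd_inner (h.dS p) ((h.contDiff_dS (0, 1)).differentiable (by simp) p) (0, 1)
  rw [pd_const' (h.SdS (0, 1))] at h2
  have h3 : pd (1, 0) (fun q => ⟪pd (1, 0) F q, pd (0, 1) (pd (0, 1) F) q⟫) p =
      c ^ 2 * b * (cos p.1 * (a + b * cos p.1) - b * sin p.1 ^ 2) := by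
    have : (fun q => ⟪pd (1, 0) F q, pd (0, 1) (pd (0, 1) F) q⟫) =
      fun q : ℝ × ℝ => c ^ 2 * (a + b * cos q.1) * (b * sin q.1) := funext h.STt
    rw [this, pd]
    have h0 : HasFDerivAt (fun q : ℝ × ℝ => cos q.1)
        ((- sin p.1) • ContinuousLinearMap.fst ℝ ℝ ℝ) p :=
      (hasFDerivAt_fst (𝕜 := ℝ) (E := ℝ) (F := ℝ) (p := p)).cos
    have h0' : HasFDerivAt (fun q : ℝ × ℝ => sin q.1)
        ((cos p.1) • ContinuousLinearMap.fst ℝ ℝ ℝ) p :=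
      (hasFDerivAt_fst (𝕜 := ℝ) (E := ℝ) (F := ℝ) (p := p)).sin
    have hd := (((h0.const_mul b).const_add a).const_mul (c ^ 2)).mul (h0'.const_mul b)
    have hd' := hd.fderiv
    have e : ((fun q : ℝ × ℝ => c ^ 2 * (a + b * cos q.1)) * fun q => b * sin q.1) =
      fun q : ℝ × ℝ => c ^ 2 * (a + b * cos q.1) * (b * sin q.1) := rfl
    rw [e] at hd'
    rw [hd']
    simp
    ring
  have h4 : pd (1, 0) (pd (0, 1) (pd (0, 1) F)) p = pd (0, 1) (pd (0, 1) (pd (1, 0) F)) p := by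
    rw [pd_comm h.contDiff_T]
    have : pd (1, 0) (pd (0, 1) F) = pd (0, 1) (pd (1, 0) F) := funext h.sym
    rw [this]
  rw [h3, h4] at h1
  linarith

/-- the second fundamental form -/
lemma det_second (p : ℝ × ℝ) :
    ⟪pd (1, 0) (pd (1, 0) F) p, nor a b c F p⟫ * ⟪pd (0, 1) (pd (0, 1) F) p, nor a b c F p⟫ -
    ⟪pd (0, 1) (pd (1, 0) F) p, nor a b c F p⟫ ^ 2 = c ^ 2 * b * cos p.1 * (a + b * cos p.1) := by
  have hg := h.gauss p
  have hb := h.b_pos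
  have hk := h.ch_pos p.1
  have hx (x y : E3) := expand (pow_pos hb 2) (pow_pos hk 2) (h.ss p) (h.tt p) (h.st p) (h.nn p)
    (nS p) (nT p) x y
  have hS (w : ℝ × ℝ) : ⟪pd w (pd (1, 0) F) p, pd (1, 0) F p⟫ = 0 := by
    rw [real_inner_comm]; exact h.SdS w p
  rw [hx (pd (1, 0) (pd (1, 0) F) p), hx (pd (0, 1) (pd (1, 0) F) p), hS, hS, h.SsT, h.StT] at hg
  have hc := h.c_pos
  have hh := h.h_pos p.1
  have e : -(c ^ 2 * (a + b * cos p.1) * (b * sin p.1)) * -(c ^ 2 * (a + b * cos p.1) *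
      (b * sin p.1)) / (c * (a + b * cos p.1)) ^ 2 = c ^ 2 * b ^ 2 * sin p.1 ^ 2 := by
    generalize a + b * cos p.1 = k at hh
    field_simp
  rw [e, zero_mul, zero_mul, zero_div, zero_div, zero_mul, zero_div] at hg
  linear_combination hg

/-- the Gram determinant of the derivatives of the unit normal. -/
lemma gram_nor (p : ℝ × ℝ) :
    ⟪pd (1, 0) (nor a b c F) p, pd (1, 0) (nor a b c F) p⟫ *
    ⟪pd (0, 1) (nor a b c F) p, pd (0, 1) (nor a b c F) p⟫ -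
    ⟪pd (1, 0) (nor a b c F) p, pd (0, 1) (nor a b c F) p⟫ ^ 2 = (c * cos p.1) ^ 2 := by
  have hd := h.det_second p
  have hb := h.b_pos
  have hk := h.ch_pos p.1
  have hx (x y : E3) := expand (pow_pos hb 2) (pow_pos hk 2) (h.ss p) (h.tt p) (h.st p) (h.nn p)
    (nS p) (nT p) x y
  have h1 (w : ℝ × ℝ) : ⟪pd w (nor a b c F) p, nor a b c F p⟫ = 0 := by
    have h1 := pd_inner (h.dn p) (h.dn p) w
    rw [pd_const' h.nn, real_inner_comm (pd w (nor a b c F) p)] at h1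
    linarith
  have h2 (w : ℝ × ℝ) : ⟪pd w (nor a b c F) p, pd (1, 0) F p⟫ =
      - ⟪pd w (pd (1, 0) F) p, nor a b c F p⟫ := by
    have h1 := pd_inner (h.dn p) (h.dS p) w
    rw [pd_const' nS, real_inner_comm (pd w (pd (1, 0) F) p)] at h1
    linarith
  have h3 (w : ℝ × ℝ) : ⟪pd w (nor a b c F) p, pd (0, 1) F p⟫ =
      - ⟪pd w (pd (0, 1) F) p, nor a b c F p⟫ := by
    have h1 := pd_inner (h.dn p) (h.dT p) w
    rw [pd_const' nT, real_inner_comm (pd w (pd (0, 1) F) p)] at h1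
    linarith
  rw [hx (pd (1, 0) (nor a b c F) p) (pd (1, 0) (nor a b c F) p),
    hx (pd (1, 0) (nor a b c F) p) (pd (0, 1) (nor a b c F) p),
    hx (pd (0, 1) (nor a b c F) p) (pd (0, 1) (nor a b c F) p), h1, h1, h2, h2, h3, h3, h.sym]
  have hc := h.c_pos
  have hh := h.h_pos p.1
  generalize ⟪pd (1, 0) (pd (1, 0) F) p, nor a b c F p⟫ = L at hd
  generalize ⟪pd (0, 1) (pd (1, 0) F) p, nor a b c F p⟫ = M at hd
  generalize ⟪pd (0, 1) (pd (0, 1) F) p, nor a b c F p⟫ = N at hd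
  generalize a + b * cos p.1 = k at hh hd
  have e : (L * N - M ^ 2) ^ 2 = (c ^ 2 * b * cos p.1 * k) ^ 2 := by rw [hd]
  field_simp
  linear_combination (c ^ 2 * k ^ 2 * b ^ 2) * e

end Iso
end Pool.Agent.W538.Tor
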