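import Mathlib

/-! Definitions: Riemannian metrics on a surface and maps to a Euclidean space inducing them. -/

open Bundle Manifold Topology
open scoped ContDiff Manifold RealInnerProductSpace

noncomputable section
namespace Pool.Agent.W538.Tor

section general
variable {V H F : Type} [NormedAddCommGroup V] [NormedSpace ℝ V] [TopologicalSpace H]
  (I : ModelWithCorners ℝ V H) [NormedAddCommGroup F] [InnerProductSpace ℝ F]

section
variable {M : Type} [TopologicalSpace M] [ChartedSpace H M]

/-- The differential of the map `f` at `z`; tangent vectors are elements of the model space `V`, as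
everywhere in Mathlib. -/
def diff (f : M → F) (z : M) : V →L[ℝ] F := mfderiv I 𝓘(ℝ, F) f z

/-- The map `f` is a smooth embedding of the manifold. -/
def IsSmoothEmb (f : M → F) : Prop :=
  ContMDiff I 𝓘(ℝ, F) ∞ f ∧ IsEmbedding f ∧ ∀ z, Function.Injective (diff I f z)

variable (M) [IsManifold I ∞ M]

/-- Smooth Riemannian metrics on the manifold. -/
abbrev Metric := ContMDiffRiemannianMetric I ∞ V (fun z : M => TangentSpace I z)

variable {M}

/-- The inner product of the Riemannian metric `g` on the tangent space at `z`. -/
def form (g : Metric I M) (z : M) : V →L[ℝ] V →L[ℝ] ℝ := g.inner z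

/-- The inner product of the tangent vectors `u` and `v` at `z`. -/
def val (g : Metric I M) (z : M) (u v : V) : ℝ := form I g z u v

/-- The map `f` induces the Riemannian metric `g`. -/
def Induces (f : M → F) (g : Metric I M) : Prop :=
  ∀ (z : M) (u v : V), val I g z u v = inner ℝ (diff I f z u) (diff I f z v)

/-- The distance `sup_z |g - g₀|_{g₀}(z)` of the metrics `g` and `g₀` on a surface is at most `r`:
at each point the norm of the symmetric tensor `g - g₀` is computed in the orthonormal bases for
`g₀`. -/
def DistLE (g g₀ : Metric I M) (r : ℝ) : Prop :=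
  ∀ (z : M) (u v : V), val I g₀ z u u = 1 → val I g₀ z v v = 1 → val I g₀ z u v = 0 →
    √((val I g z u u - val I g₀ z u u) ^ 2 + 2 * (val I g z u v - val I g₀ z u v) ^ 2 +
      (val I g z v v - val I g₀ z v v) ^ 2) ≤ r

/-- The map `f₀` is a smooth embedding of the surface `M` into the Euclidean space `F`, but there
are metrics `g` on `M` arbitrarily close to the metric `g₀` induced by `f₀` which are not induced by
any map of class `C³` to `F`. -/
def Unstable (f₀ : M → F) : Prop :=
  IsSmoothEmb I f₀ ∧ ∃ g₀ : Metric I M, Induces I f₀ g₀ ∧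
    ∀ ε > 0, ∃ g : Metric I M, (∃ r < ε, DistLE I g g₀ r) ∧
    ∀ f : M → F, ContMDiff I 𝓘(ℝ, F) 3 f → ¬ Induces I f g

end

end general

/-- The same for a surface which is the square `C × C` of a curve `C`. -/
def UnstableSquare {V C F : Type} [NormedAddCommGroup V] [NormedSpace ℝ V] [NormedAddCommGroup F]
    [InnerProductSpace ℝ F] [TopologicalSpace C] [ChartedSpace V C] [IsManifold 𝓘(ℝ, V) ∞ C]
    (f₀ : C × C → F) : Prop :=
  Unstable (𝓘(ℝ, V).prod 𝓘(ℝ, V)) f₀


/-- Euclidean three-space. -/
abbrev E3 := EuclideanSpace ℝ (Fin 3)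

/-- The two-dimensional torus. -/
abbrev T2 := Circle × Circle

/-- The torus of revolution with radii `a` and `b` in Euclidean space. -/
def torusMap (a b : ℝ) (z : T2) : E3 :=
  !₂[(a + b * (z.1 : ℂ).re) * (z.2 : ℂ).re, (a + b * (z.1 : ℂ).re) * (z.2 : ℂ).im,
    b * (z.1 : ℂ).im]

end Pool.Agent.W538.Tor
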