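import Pool.Agent.W538.Tor.Maps

/-! The metrics on the torus, and the main statements. -/

open Bundle Bornology Set MeasureTheory Manifold Filter Topology Real
open scoped ContDiff Manifold NNReal RealInnerProductSpace

noncomputable section
namespace Pool.Agent.W538.Tor
set_option maxSynthPendingDepth 3

lemma dcov_surj (p : ℝ × ℝ) : Function.Surjective (dcov p) := by
  have hinj : Function.Injective (dcov p) := by
    rw [injective_iff_map_eq_zero]
    intro w hw
    have h1 := inner_torus 2 1 p w w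
    have h2 : fderiv ℝ (torusMap 2 1 ∘ cov) p w = 0 := by
      rw [fderiv_comp_cov ((contMDiff_torusMap 2 1).of_le (by simp)), hw]
      exact map_zero _
    rw [h2, inner_zero_left] at h1
    have h3 := Real.neg_one_le_cos p.1
    have h4 : 0 < (2 + 1 * cos p.1) ^ 2 := by nlinarith
    have h5 : w.1 = 0 := by nlinarith [mul_self_nonneg w.1, mul_nonneg h4.le (mul_self_nonneg w.2)]
    have h6 : w.2 = 0 := by
      rw [h5] at h1
      have : (2 + 1 * cos p.1) ^ 2 * (w.2 * w.2) = 0 := by linarith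
      rcases mul_eq_zero.1 this with h | h
      · exact absurd h h4.ne'
      · exact mul_self_eq_zero.1 h
    exact Prod.ext h5 h6
  have hrank : Module.finrank ℝ (ℝ × ℝ) =
      Module.finrank ℝ (EuclideanSpace ℝ (Fin 1) × EuclideanSpace ℝ (Fin 1)) := by
    simp
  exact (LinearMap.injective_iff_surjective_of_finrank_eq_finrank
    (f := (dcov p : (ℝ × ℝ) →ₗ[ℝ] _)) hrank).1 hinj

/-- every tangent vector is the image of a vector of the plane -/
lemma exists_lift (z : T2) : ∃ p, cov p = z ∧ ∀ u : TangentSpace I2 z, ∃ w : ℝ × ℝ, dcov p w = u := by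
  obtain ⟨p, rfl⟩ := cov_surj z
  exact ⟨p, rfl, dcov_surj p⟩

variable {a b : ℝ}

lemma D_torus_inj (hb : 0 < b) (hab : b < a) (z : T2) :
    Function.Injective (D I2 (torusMap a b) z) := by
  obtain ⟨p, rfl⟩ := cov_surj z
  rw [injective_iff_map_eq_zero]
  intro u hu
  obtain ⟨w, rfl⟩ := dcov_surj p u
  have h1 := inner_torus a b p w w
  have h2 : fderiv ℝ (torusMap a b ∘ cov) p w = 0 := by
    rw [fderiv_comp_cov ((contMDiff_torusMap a b).of_le (by simp))]
    exact hu
  rw [h2, inner_zero_left] at h1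
  have h3 := Real.neg_one_le_cos p.1
  have h0 : 0 < a + b * cos p.1 := by nlinarith
  have h4 : 0 < (a + b * cos p.1) ^ 2 := by positivity
  have h7 : 0 < b ^ 2 := by positivity
  have h5 : w.1 = 0 := by
    have := mul_nonneg h4.le (mul_self_nonneg w.2)
    have h8 := mul_nonneg h7.le (mul_self_nonneg w.1)
    have : b ^ 2 * (w.1 * w.1) = 0 := by linarith
    rcases mul_eq_zero.1 this with h | h
    · exact absurd h h7.ne'
    · exact mul_self_eq_zero.1 h
  have h6 : w.2 = 0 := by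
    rw [h5] at h1
    have : (a + b * cos p.1) ^ 2 * (w.2 * w.2) = 0 := by linarith
    rcases mul_eq_zero.1 this with h | h
    · exact absurd h h4.ne'
    · exact mul_self_eq_zero.1 h
  have : w = 0 := Prod.ext h5 h6
  rw [this]
  exact map_zero _

lemma D_aux_inj (hb : 0 < b) (hab : b < a) {c : ℝ} (hc : 0 < c) (hc1 : c ≤ 1) (z : T2) :
    Function.Injective (D I2 (auxMap a b c) z) := by
  obtain ⟨p, rfl⟩ := cov_surj z
  rw [injective_iff_map_eq_zero]
  intro u hu
  obtain ⟨w, rfl⟩ := dcov_surj p u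
  have h1 := inner_aux a b hc hc1 p w w
  have h2 : fderiv ℝ (auxMap a b c ∘ cov) p w = 0 := by
    rw [fderiv_comp_cov ((contMDiff_auxMap a b c).of_le (by simp))]
    exact hu
  rw [h2, inner_zero_left] at h1
  have h3 := Real.neg_one_le_cos p.1
  have h0 : 0 < a + b * cos p.1 := by nlinarith
  have h4 : 0 < (c * (a + b * cos p.1)) ^ 2 := by positivity
  have h7 : 0 < b ^ 2 := by positivity
  have h5 : w.1 = 0 := by
    have := mul_nonneg h4.le (mul_self_nonneg w.2)
    have h8 := mul_nonneg h7.le (mul_self_nonneg w.1)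
    have : b ^ 2 * (w.1 * w.1) = 0 := by linarith
    rcases mul_eq_zero.1 this with h | h
    · exact absurd h h7.ne'
    · exact mul_self_eq_zero.1 h
  have h6 : w.2 = 0 := by
    rw [h5] at h1
    have : (c * (a + b * cos p.1)) ^ 2 * (w.2 * w.2) = 0 := by linarith
    rcases mul_eq_zero.1 this with h | h
    · exact absurd h h4.ne'
    · exact mul_self_eq_zero.1 h
  have : w = 0 := Prod.ext h5 h6
  rw [this]
  exact map_zero _

/-- the metric induced by the torus of revolution. -/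
def g0 (hb : 0 < b) (hab : b < a) : Metric I2 T2 :=
  metric I2 (torusMap a b) (contMDiff_torusMap a b) (D_torus_inj hb hab)

/-- the perturbed metric. -/
def g1 (hb : 0 < b) (hab : b < a) {c : ℝ} (hc : 0 < c) (hc1 : c ≤ 1) : Metric I2 T2 :=
  metric I2 (auxMap a b c) (contMDiff_auxMap a b c) (D_aux_inj hb hab hc hc1)

lemma g0_apply (hb : 0 < b) (hab : b < a) (p w w' : ℝ × ℝ) :
    val I2 (g0 hb hab) (cov p) (dcov p w) (dcov p w') =
    b ^ 2 * (w.1 * w'.1) + (a + b * cos p.1) ^ 2 * (w.2 * w'.2) := by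
  rw [← inner_torus a b p w w', fderiv_comp_cov ((contMDiff_torusMap a b).of_le (by simp)),
    fderiv_comp_cov ((contMDiff_torusMap a b).of_le (by simp))]
  rfl

lemma g1_apply (hb : 0 < b) (hab : b < a) {c : ℝ} (hc : 0 < c) (hc1 : c ≤ 1) (p w w' : ℝ × ℝ) :
    val I2 (g1 hb hab hc hc1) (cov p) (dcov p w) (dcov p w') =
    b ^ 2 * (w.1 * w'.1) + (c * (a + b * cos p.1)) ^ 2 * (w.2 * w'.2) := by
  rw [← inner_aux a b hc hc1 p w w', fderiv_comp_cov ((contMDiff_auxMap a b c).of_le (by simp)),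
    fderiv_comp_cov ((contMDiff_auxMap a b c).of_le (by simp))]
  rfl

lemma induces_g0 (hb : 0 < b) (hab : b < a) : Induces I2 (torusMap a b) (g0 hb hab) :=
  fun _ _ _ => rfl

lemma distLE_g1 (hb : 0 < b) (hab : b < a) {c : ℝ} (hc : 0 < c) (hc1 : c ≤ 1) :
    DistLE I2 (g1 hb hab hc hc1) (g0 hb hab) (2 * (1 - c ^ 2)) := by
  intro z u v
  obtain ⟨p, rfl, hp⟩ := exists_lift z
  obtain ⟨w, rfl⟩ := hp u
  obtain ⟨w', rfl⟩ := hp v
  intro h1 h2 _
  rw [g0_apply] at h1 h2
  simp only [g0_apply, g1_apply]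
  set k := (a + b * cos p.1) ^ 2 with hk
  have hk0 : 0 ≤ k := by positivity
  have hc2 : 0 ≤ 1 - c ^ 2 := by nlinarith
  have e : (b ^ 2 * (w.1 * w.1) + (c * (a + b * cos p.1)) ^ 2 * (w.2 * w.2) -
      (b ^ 2 * (w.1 * w.1) + k * (w.2 * w.2))) ^ 2 +
      2 * (b ^ 2 * (w.1 * w'.1) + (c * (a + b * cos p.1)) ^ 2 * (w.2 * w'.2) -
      (b ^ 2 * (w.1 * w'.1) + k * (w.2 * w'.2))) ^ 2 +
      (b ^ 2 * (w'.1 * w'.1) + (c * (a + b * cos p.1)) ^ 2 * (w'.2 * w'.2) -
      (b ^ 2 * (w'.1 * w'.1) + k * (w'.2 * w'.2))) ^ 2 =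
      ((1 - c ^ 2) * (k * (w.2 * w.2) + k * (w'.2 * w'.2))) ^ 2 := by
    rw [hk]; ring
  rw [e]
  have h3 : k * (w.2 * w.2) ≤ 1 := by nlinarith [mul_nonneg (sq_nonneg b) (mul_self_nonneg w.1)]
  have h4 : k * (w'.2 * w'.2) ≤ 1 := by nlinarith [mul_nonneg (sq_nonneg b) (mul_self_nonneg w'.1)]
  have h5 : 0 ≤ k * (w.2 * w.2) + k * (w'.2 * w'.2) :=
    add_nonneg (mul_nonneg hk0 (mul_self_nonneg _)) (mul_nonneg hk0 (mul_self_nonneg _))
  rw [Real.sqrt_sq (mul_nonneg hc2 h5)]
  nlinarith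

lemma not_induces_g1 (hb : 0 < b) (hab : b < a) {c : ℝ} (hc : 0 < c) (hc1 : c < 1) {f : T2 → E3}
    (hf : ContMDiff I2 𝓘(ℝ, E3) 3 f) : ¬ Induces I2 f (g1 hb hab hc hc1.le) := by
  intro hind
  have hf1 : ContMDiff I2 𝓘(ℝ, E3) 1 f := hf.of_le (by norm_num)
  have hin (p w w' : ℝ × ℝ) : ⟪fderiv ℝ (f ∘ cov) p w, fderiv ℝ (f ∘ cov) p w'⟫ =
      b ^ 2 * (w.1 * w'.1) + (c * (a + b * cos p.1)) ^ 2 * (w.2 * w'.2) := by
    rw [← g1_apply hb hab hc hc1.le, hind, fderiv_comp_cov hf1, fderiv_comp_cov hf1]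
    rfl
  have hiso : Iso a b c (f ∘ cov) :=
    { b_pos := hb
      b_lt := hab
      c_pos := hc
      smooth := contDiff_comp_cov 
        (show ((3 : ℕ∞) : WithTop ℕ∞) ≤ ((⊤ : ℕ∞) : WithTop ℕ∞) from WithTop.coe_le_coe.2 le_top) hf
      ss := fun p => by
        unfold pd
        rw [hin]; simp
      st := fun p => by
        unfold pd
        rw [hin]; simp
      tt := fun p => by
        unfold pd
        rw [hin]; simp }
  refine hiso.false_of_lt (fun p => ?_) (fun p => ?_) hc1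
  · simp only [Function.comp, cov]
    rw [Circle.periodic_exp]
  · simp only [Function.comp, cov]
    rw [Circle.periodic_exp]

lemma torusMap_injective (hb : 0 < b) (hab : b < a) : Function.Injective (torusMap a b) := by
  intro z z' h
  obtain ⟨⟨s, t⟩, rfl⟩ := cov_surj z
  obtain ⟨⟨s', t'⟩, rfl⟩ := cov_surj z'
  have h0 := congrArg (fun x : E3 => x 0) h
  have h1 := congrArg (fun x : E3 => x 1) h
  have h2 := congrArg (fun x : E3 => x 2) h
  simp [torusMap, cov, exp_re, exp_im] at h0 h1 h2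
  have k1 := Real.neg_one_le_cos s
  have k2 := Real.neg_one_le_cos s'
  have p1 : 0 < a + b * cos s := by nlinarith
  have p2 : 0 < a + b * cos s' := by nlinarith
  have hsq : (a + b * cos s) ^ 2 = (a + b * cos s') ^ 2 := by
    have e1 := Real.sin_sq_add_cos_sq t
    have e2 := Real.sin_sq_add_cos_sq t'
    calc (a + b * cos s) ^ 2 = ((a + b * cos s) * cos t) ^ 2 + ((a + b * cos s) * sin t) ^ 2 := by
          linear_combination -(a + b * cos s) ^ 2 * e1
      _ = ((a + b * cos s') * cos t') ^ 2 + ((a + b * cos s') * sin t') ^ 2 := by rw [h0, h1]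
      _ = _ := by linear_combination (a + b * cos s') ^ 2 * e2
  have hr : a + b * cos s = a + b * cos s' := by
    have := (sq_eq_sq₀ p1.le p2.le).1 hsq
    exact this
  have hcos : cos s = cos s' := by
    have : b * cos s = b * cos s' := by linarith
    exact mul_left_cancel₀ hb.ne' this
  have hsin : sin s = sin s' := by
    rcases h2 with h2 | h2
    · exact h2
    · exact absurd h2 hb.ne'
  rw [← hr] at h0 h1
  have hc' : cos t = cos t' := mul_left_cancel₀ p1.ne' h0
  have hs' : sin t = sin t' := mul_left_cancel₀ p1.ne' h1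
  unfold cov
  apply Prod.ext
  · apply Circle.ext
    apply Complex.ext
    · simp only [exp_re, hcos]
    · simp only [exp_im, hsin]
  · apply Circle.ext
    apply Complex.ext
    · simp only [exp_re, hc']
    · simp only [exp_im, hs']

lemma isEmbedding_torusMap (hb : 0 < b) (hab : b < a) : IsEmbedding (torusMap a b) :=
  ((contMDiff_torusMap a b).continuous.isClosedEmbedding (torusMap_injective hb hab)).isEmbedding

end Pool.Agent.W538.Tor
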