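import Pool.Agent.W538.Tor.Mfd

/-! The torus of revolution and the perturbed metrics. -/

open Bundle Bornology Set MeasureTheory Manifold Filter Topology Real
open scoped ContDiff Manifold NNReal RealInnerProductSpace

noncomputable section
namespace Pool.Agent.W538.Tor
set_option maxSynthPendingDepth 3

/-- An auxiliary map to Euclidean five-space. -/
def auxMap (a b c : ℝ) (z : T2) : EuclideanSpace ℝ (Fin 5) :=
  !₂[c * (a + b * (z.1 : ℂ).re) * (z.2 : ℂ).re, c * (a + b * (z.1 : ℂ).re) * (z.2 : ℂ).im,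
    c * (b * (z.1 : ℂ).im), √(1 - c ^ 2) * (b * (z.1 : ℂ).re), √(1 - c ^ 2) * (b * (z.1 : ℂ).im)]

lemma contMDiff_coe' : ContMDiff I2 𝓘(ℝ, ℂ × ℂ) ∞ (fun z : T2 => ((z.1 : ℂ), (z.2 : ℂ))) := by
  have : Fact (Module.finrank ℝ ℂ = 1 + 1) := finrank_real_complex_fact'
  let c : Circle → ℂ := fun z => z
  have h : ContMDiff (𝓡 1) 𝓘(ℝ, ℂ) ∞ c := contMDiff_coe_sphere
  exact (h.comp contMDiff_fst).prodMk_space (h.comp contMDiff_snd)

lemma contMDiff_torusMap (a b : ℝ) : ContMDiff I2 𝓘(ℝ, E3) ∞ (torusMap a b) := by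
  have hP : ContDiff ℝ ∞ (fun z : ℂ × ℂ => (!₂[(a + b * z.1.re) * z.2.re,
      (a + b * z.1.re) * z.2.im, b * z.1.im] : E3)) := by
    have h1 : ContDiff ℝ ∞ (fun z : ℂ × ℂ => z.1.re) := Complex.reCLM.contDiff.comp contDiff_fst
    have h2 : ContDiff ℝ ∞ (fun z : ℂ × ℂ => z.1.im) := Complex.imCLM.contDiff.comp contDiff_fst
    have h3 : ContDiff ℝ ∞ (fun z : ℂ × ℂ => z.2.re) := Complex.reCLM.contDiff.comp contDiff_snd
    have h4 : ContDiff ℝ ∞ (fun z : ℂ × ℂ => z.2.im) := Complex.imCLM.contDiff.comp contDiff_snd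
    have h5 := contDiff_const (c := a).add (contDiff_const (c := b).mul h1)
    rw [contDiff_euclidean]
    intro i
    fin_cases i
    · exact h5.mul h3
    · exact h5.mul h4
    · exact contDiff_const.mul h2
  exact hP.contMDiff.comp contMDiff_coe'

lemma contMDiff_auxMap (a b c : ℝ) :
    ContMDiff I2 𝓘(ℝ, EuclideanSpace ℝ (Fin 5)) ∞ (auxMap a b c) := by
  have hP : ContDiff ℝ ∞ (fun z : ℂ × ℂ => (!₂[c * (a + b * z.1.re) * z.2.re,
      c * (a + b * z.1.re) * z.2.im, c * (b * z.1.im), √(1 - c ^ 2) * (b * z.1.re),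
      √(1 - c ^ 2) * (b * z.1.im)] : EuclideanSpace ℝ (Fin 5))) := by
    have h1 : ContDiff ℝ ∞ (fun z : ℂ × ℂ => z.1.re) := Complex.reCLM.contDiff.comp contDiff_fst
    have h2 : ContDiff ℝ ∞ (fun z : ℂ × ℂ => z.1.im) := Complex.imCLM.contDiff.comp contDiff_fst
    have h3 : ContDiff ℝ ∞ (fun z : ℂ × ℂ => z.2.re) := Complex.reCLM.contDiff.comp contDiff_snd
    have h4 : ContDiff ℝ ∞ (fun z : ℂ × ℂ => z.2.im) := Complex.imCLM.contDiff.comp contDiff_snd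
    have h5 := contDiff_const (c := c).mul
      (contDiff_const (c := a).add (contDiff_const (c := b).mul h1))
    rw [contDiff_euclidean]
    intro i
    fin_cases i
    · exact h5.mul h3
    · exact h5.mul h4
    · exact contDiff_const.mul (contDiff_const.mul h2)
    · exact contDiff_const.mul (contDiff_const.mul h1)
    · exact contDiff_const.mul (contDiff_const.mul h2)
  exact hP.contMDiff.comp contMDiff_coe'

lemma exp_re (s : ℝ) : (Circle.exp s : ℂ).re = cos s := by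
  rw [Circle.coe_exp]; exact Complex.exp_ofReal_mul_I_re s

lemma exp_im (s : ℝ) : (Circle.exp s : ℂ).im = sin s := by
  rw [Circle.coe_exp]; exact Complex.exp_ofReal_mul_I_im s

lemma inner_fderiv {n : ℕ} {f : ℝ × ℝ → EuclideanSpace ℝ (Fin n)} {p : ℝ × ℝ}
    (hf : DifferentiableAt ℝ f p) (w w' : ℝ × ℝ) : ⟪fderiv ℝ f p w, fderiv ℝ f p w'⟫ =
    ∑ i, fderiv ℝ (fun q => f q i) p w * fderiv ℝ (fun q => f q i) p w' := by
  have h (i : Fin n) (w : ℝ × ℝ) : fderiv ℝ (fun q => f q i) p w = (fderiv ℝ f p w) i := by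
    have := ((EuclideanSpace.proj (𝕜 := ℝ) i).hasFDerivAt.comp p hf.hasFDerivAt).fderiv
    exact congrArg (fun A => A w) this
  simp only [h, PiLp.inner_apply]
  apply Finset.sum_congr rfl
  intro i _
  simp
  ring

lemma inner_torus (a b : ℝ) (p w w' : ℝ × ℝ) :
    ⟪fderiv ℝ (torusMap a b ∘ cov) p w, fderiv ℝ (torusMap a b ∘ cov) p w'⟫ =
    b ^ 2 * (w.1 * w'.1) + (a + b * cos p.1) ^ 2 * (w.2 * w'.2) := by
  rw [inner_fderiv ((contDiff_comp_cov le_rfl (contMDiff_torusMap a b)).differentiable (by simp) p),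
    Fin.sum_univ_three]
  have c0 : HasFDerivAt (fun q : ℝ × ℝ => cos q.1) ((- sin p.1) • ContinuousLinearMap.fst ℝ ℝ ℝ)
    p := (hasFDerivAt_fst (𝕜 := ℝ) (E := ℝ) (F := ℝ) (p := p)).cos
  have s0 : HasFDerivAt (fun q : ℝ × ℝ => sin q.1) ((cos p.1) • ContinuousLinearMap.fst ℝ ℝ ℝ)
    p := (hasFDerivAt_fst (𝕜 := ℝ) (E := ℝ) (F := ℝ) (p := p)).sin
  have c1 : HasFDerivAt (fun q : ℝ × ℝ => cos q.2) ((- sin p.2) • ContinuousLinearMap.snd ℝ ℝ ℝ)
    p := (hasFDerivAt_snd (𝕜 := ℝ) (E := ℝ) (F := ℝ) (p := p)).cos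
  have s1 : HasFDerivAt (fun q : ℝ × ℝ => sin q.2) ((cos p.2) • ContinuousLinearMap.snd ℝ ℝ ℝ)
    p := (hasFDerivAt_snd (𝕜 := ℝ) (E := ℝ) (F := ℝ) (p := p)).sin
  have hh := (c0.const_mul b).const_add a
  have e0 : (fun q => (torusMap a b ∘ cov) q 0) =
      (fun q : ℝ × ℝ => a + b * cos q.1) * (fun q => cos q.2) := by
    funext q
    simp [torusMap, cov, exp_re]
  have e1 : (fun q => (torusMap a b ∘ cov) q 1) =
      (fun q : ℝ × ℝ => a + b * cos q.1) * (fun q => sin q.2) := by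
    funext q
    simp [torusMap, cov, exp_re, exp_im]
  have e2 : (fun q => (torusMap a b ∘ cov) q 2) = (fun q : ℝ × ℝ => b * sin q.1) := by
    funext q
    simp [torusMap, cov, exp_im]
  rw [e0, e1, e2, (hh.mul c1).fderiv, (hh.mul s1).fderiv, (s0.const_mul b).fderiv]
  simp only [add_apply, smul_apply, smul_eq_mul,
    ContinuousLinearMap.coe_fst', ContinuousLinearMap.coe_snd']
  have k1 := Real.sin_sq_add_cos_sq p.1
  have k2 := Real.sin_sq_add_cos_sq p.2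
  linear_combination (b ^ 2 * w.1 * w'.1) * k1 +
    (b ^ 2 * sin p.1 ^ 2 * w.1 * w'.1 + (a + b * cos p.1) ^ 2 * w.2 * w'.2) * k2

lemma inner_aux (a b : ℝ) {c : ℝ} (hc : 0 < c) (hc1 : c ≤ 1) (p w w' : ℝ × ℝ) :
    ⟪fderiv ℝ (auxMap a b c ∘ cov) p w, fderiv ℝ (auxMap a b c ∘ cov) p w'⟫ =
    b ^ 2 * (w.1 * w'.1) + (c * (a + b * cos p.1)) ^ 2 * (w.2 * w'.2) := by
  rw [inner_fderiv ((contDiff_comp_cov le_rfl (contMDiff_auxMap a b c)).differentiable (by simp) p),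
    Fin.sum_univ_five]
  have c0 : HasFDerivAt (fun q : ℝ × ℝ => cos q.1) ((- sin p.1) • ContinuousLinearMap.fst ℝ ℝ ℝ)
    p := (hasFDerivAt_fst (𝕜 := ℝ) (E := ℝ) (F := ℝ) (p := p)).cos
  have s0 : HasFDerivAt (fun q : ℝ × ℝ => sin q.1) ((cos p.1) • ContinuousLinearMap.fst ℝ ℝ ℝ)
    p := (hasFDerivAt_fst (𝕜 := ℝ) (E := ℝ) (F := ℝ) (p := p)).sin
  have c1 : HasFDerivAt (fun q : ℝ × ℝ => cos q.2) ((- sin p.2) • ContinuousLinearMap.snd ℝ ℝ ℝ)
    p := (hasFDerivAt_snd (𝕜 := ℝ) (E := ℝ) (F := ℝ) (p := p)).cos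
  have s1 : HasFDerivAt (fun q : ℝ × ℝ => sin q.2) ((cos p.2) • ContinuousLinearMap.snd ℝ ℝ ℝ)
    p := (hasFDerivAt_snd (𝕜 := ℝ) (E := ℝ) (F := ℝ) (p := p)).sin
  have hh := ((c0.const_mul b).const_add a).const_mul c
  have e0 : (fun q => (auxMap a b c ∘ cov) q 0) =
      (fun q : ℝ × ℝ => c * (a + b * cos q.1)) * (fun q => cos q.2) := by
    funext q
    simp [auxMap, cov, exp_re]
  have e1 : (fun q => (auxMap a b c ∘ cov) q 1) =
      (fun q : ℝ × ℝ => c * (a + b * cos q.1)) * (fun q => sin q.2) := by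
    funext q
    simp [auxMap, cov, exp_re, exp_im]
  have e2 : (fun q => (auxMap a b c ∘ cov) q 2) = (fun q : ℝ × ℝ => c * (b * sin q.1)) := by
    funext q
    simp [auxMap, cov, exp_im]
  have e3 : (fun q => (auxMap a b c ∘ cov) q 3) =
      (fun q : ℝ × ℝ => √(1 - c ^ 2) * (b * cos q.1)) := by
    funext q
    simp [auxMap, cov, exp_re]
  have e4 : (fun q => (auxMap a b c ∘ cov) q 4) =
      (fun q : ℝ × ℝ => √(1 - c ^ 2) * (b * sin q.1)) := by
    funext q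
    simp [auxMap, cov, exp_im]
  rw [e0, e1, e2, e3, e4, (hh.mul c1).fderiv, (hh.mul s1).fderiv,
    ((s0.const_mul b).const_mul c).fderiv, ((c0.const_mul b).const_mul (√(1 - c ^ 2))).fderiv,
    ((s0.const_mul b).const_mul (√(1 - c ^ 2))).fderiv]
  simp only [add_apply, smul_apply, smul_eq_mul,
    ContinuousLinearMap.coe_fst', ContinuousLinearMap.coe_snd']
  have k1 := Real.sin_sq_add_cos_sq p.1
  have k2 := Real.sin_sq_add_cos_sq p.2
  have k3 : √(1 - c ^ 2) ^ 2 = 1 - c ^ 2 := Real.sq_sqrt (by nlinarith)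
  linear_combination (b ^ 2 * w.1 * w'.1) * k1 +
    (c ^ 2 * b ^ 2 * sin p.1 ^ 2 * w.1 * w'.1 + c ^ 2 * (a + b * cos p.1) ^ 2 * w.2 * w'.2) * k2 +
    (b ^ 2 * w.1 * w'.1) * (sin p.1 ^ 2 + cos p.1 ^ 2) * k3

end Pool.Agent.W538.Tor
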