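import Pool.Agent.W538.Tor.Cover

/-! The volume of the cone over the Gauss map. -/

open Real MeasureTheory Set Filter Topology
open scoped RealInnerProductSpace ContDiff ENNReal

noncomputable section
namespace Pool.Agent.W538.Tor

variable {a b c : ℝ} {F : ℝ × ℝ → E3}

/-- the cone over the Gauss map. -/
def cone (a b c : ℝ) (F : ℝ × ℝ → E3) (x : E3) : E3 := x 0 • nor a b c F (x 1, x 2)

/-- the coordinates. -/
def co (i : Fin 3) : E3 →L[ℝ] ℝ := EuclideanSpace.proj i

/-- the derivative of the cone over the Gauss map. -/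
def dcone (a b c : ℝ) (F : ℝ × ℝ → E3) (x : E3) : E3 →L[ℝ] E3 :=
  x 0 • (fderiv ℝ (nor a b c F) (x 1, x 2)).comp ((co 1).prod (co 2)) +
  (co 0).smulRight (nor a b c F (x 1, x 2))

lemma co_apply (i : Fin 3) (x : E3) : co i x = x i := rfl

namespace Iso
variable (h : Iso a b c F)
include h

lemma hasFDerivAt_cone (x : E3) : HasFDerivAt (cone a b c F) (dcone a b c F x) x := by
  have h0 : HasFDerivAt (fun x : E3 => x 0) (co 0) x := (co 0).hasFDerivAt
  have h1 : HasFDerivAt (fun x : E3 => (x 1, x 2)) ((co 1).prod (co 2)) x :=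
    ((co 1).prod (co 2)).hasFDerivAt
  have h2 := (h.dn (x 1, x 2)).hasFDerivAt.comp x h1
  exact h0.smul h2

lemma abs_det (x : E3) : |(dcone a b c F x).det| = x 0 ^ 2 * |c * cos (x 1)| := by
  have hn : ∀ w : ℝ × ℝ, ⟪nor a b c F (x 1, x 2), pd w (nor a b c F) (x 1, x 2)⟫ = 0 := by
    intro w
    have h1 := pd_inner (h.dn (x 1, x 2)) (h.dn (x 1, x 2)) w
    rw [pd_const' h.nn, real_inner_comm (nor a b c F (x 1, x 2))] at h1
    linarith
  have hd := det_sq (dcone a b c F x) (nor a b c F (x 1, x 2))
    (x 0 • pd (1, 0) (nor a b c F) (x 1, x 2)) (x 0 • pd (0, 1) (nor a b c F) (x 1, x 2))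
    (by
      have : ((0 : ℝ), (0 : ℝ)) = 0 := rfl
      simp [dcone, co_apply, this]) (by simp [dcone, pd, co_apply])
    (by simp [dcone, pd, co_apply]) (h.nn _)
    (by rw [real_inner_smul_right, hn, mul_zero]) (by rw [real_inner_smul_right, hn, mul_zero])
  simp only [real_inner_smul_left, real_inner_smul_right] at hd
  have hg := h.gram_nor (x 1, x 2)
  have e : (dcone a b c F x).det ^ 2 = (x 0 ^ 2 * (c * cos (x 1))) ^ 2 := by
    rw [hd]
    simp only at hg
    linear_combination (x 0) ^ 4 * hg
  rw [sq_eq_sq_iff_abs_eq_abs] at e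
  rw [e, abs_mul, abs_of_nonneg (sq_nonneg (x 0))]

end Iso

/-- the region of nonnegative curvature. -/
def Reg : Set E3 := {x | x 0 ∈ Ioo 0 1 ∧ x 1 ∈ Icc (-(π / 2)) (π / 2) ∧ x 2 ∈ Icc 0 (2 * π)}

lemma measurableSet_Reg : MeasurableSet Reg := by
  have h (i : Fin 3) : Measurable (fun x : E3 => x i) := by fun_prop
  exact ((h 0) measurableSet_Ioo).inter (((h 1) measurableSet_Icc).inter ((h 2) measurableSet_Icc))

lemma lintegral_Reg (hc : 0 < c) : ∫⁻ x in Reg, ENNReal.ofReal (x 0 ^ 2 * |c * cos (x 1)|) =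
    ENNReal.ofReal (c * (π * 4 / 3)) := by
  let f : Fin 3 → ℝ → ℝ := ![(Ioo 0 1).indicator (fun r => r ^ 2),
    (Icc (-(π / 2)) (π / 2)).indicator (fun s => c * cos s),
    (Icc 0 (2 * π)).indicator (fun _ => 1)]
  have h0 : Integrable (f 0) := by
    simp only [f, Matrix.cons_val]
    rw [integrable_indicator_iff measurableSet_Ioo]
    exact ((by fun_prop : Continuous fun r : ℝ => r ^ 2).integrableOn_Icc).mono_set
      Ioo_subset_Icc_self
  have h1 : Integrable (f 1) := by
    simp only [f, Matrix.cons_val]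
    rw [integrable_indicator_iff measurableSet_Icc]
    exact (by fun_prop : Continuous fun s : ℝ => c * cos s).integrableOn_Icc
  have h2 : Integrable (f 2) := by
    simp only [f, Matrix.cons_val]
    rw [integrable_indicator_iff measurableSet_Icc]
    exact (by fun_prop : Continuous fun s : ℝ => (1 : ℝ)).integrableOn_Icc
  have hf : ∀ i, Integrable (f i) := by
    intro i
    fin_cases i
    · exact h0
    · exact h1
    · exact h2
  have e0 : ∫ r, f 0 r = 1 / 3 := by
    simp only [f, Matrix.cons_val]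
    rw [integral_indicator measurableSet_Ioo, ← integral_Ioc_eq_integral_Ioo,
      ← intervalIntegral.integral_of_le zero_le_one, integral_pow]
    norm_num
  have e1 : ∫ s, f 1 s = 2 * c := by
    simp only [f, Matrix.cons_val]
    rw [integral_indicator measurableSet_Icc, integral_Icc_eq_integral_Ioc,
      ← intervalIntegral.integral_of_le (by linarith [Real.pi_pos]),
      intervalIntegral.integral_const_mul, integral_cos]
    rw [Real.sin_neg, Real.sin_pi_div_two]
    ring
  have e2 : ∫ s, f 2 s = 2 * π := by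
    simp only [f, Matrix.cons_val]
    rw [integral_indicator measurableSet_Icc, integral_Icc_eq_integral_Ioc,
      ← intervalIntegral.integral_of_le (by positivity)]
    simp
  have hprod : ∫ y : Fin 3 → ℝ, ∏ i, f i (y i) = c * (π * 4 / 3) := by
    rw [integral_fintype_prod_volume_eq_prod, Fin.prod_univ_three, e0, e1, e2]
    ring
  have hint : Integrable (fun y : Fin 3 → ℝ => ∏ i, f i (y i)) := Integrable.fintype_prod hf
  have hnn : ∀ y : Fin 3 → ℝ, 0 ≤ ∏ i, f i (y i) := by
    intro y
    apply Finset.prod_nonneg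
    intro i _
    fin_cases i
    · exact indicator_nonneg (fun _ _ => sq_nonneg _) _
    · exact indicator_nonneg (fun s hs => mul_nonneg hc.le (cos_nonneg_of_mem_Icc hs)) _
    · exact indicator_nonneg (fun _ _ => zero_le_one) _
  rw [← lintegral_indicator measurableSet_Reg]
  have hmp := PiLp.volume_preserving_toLp (Fin 3)
  have hrw : ∫⁻ x : E3, Reg.indicator (fun x => ENNReal.ofReal (x 0 ^ 2 * |c * cos (x 1)|)) x =
      ∫⁻ y : Fin 3 → ℝ, ENNReal.ofReal (∏ i, f i (y i)) := by
    rw [← hmp.lintegral_comp_emb (MeasurableEquiv.toLp 2 (Fin 3 → ℝ)).measurableEmbedding]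
    apply lintegral_congr
    intro y
    by_cases hy : WithLp.toLp 2 y ∈ Reg
    · rw [indicator_of_mem hy]
      obtain ⟨hy0, hy1, hy2⟩ := hy
      simp only at hy0 hy1 hy2
      rw [Fin.prod_univ_three]
      simp only [f, Matrix.cons_val]
      rw [indicator_of_mem hy0, indicator_of_mem hy1, indicator_of_mem hy2, mul_one,
        abs_of_nonneg (mul_nonneg hc.le (cos_nonneg_of_mem_Icc hy1))]
    · rw [indicator_of_notMem hy]
      have : y 0 ∉ Ioo (0 : ℝ) 1 ∨ y 1 ∉ Icc (-(π / 2)) (π / 2) ∨ y 2 ∉ Icc 0 (2 * π) := by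
        by_contra hcon
        push Not at hcon
        exact hy hcon
      rw [Fin.prod_univ_three]
      simp only [f, Matrix.cons_val]
      rcases this with h | h | h
      · rw [indicator_of_notMem h]; simp
      · rw [indicator_of_notMem h (fun s => c * cos s)]; simp
      · rw [indicator_of_notMem h (fun s => (1 : ℝ))]; simp
  rw [hrw, ← ofReal_integral_eq_lintegral_ofReal hint (Eventually.of_forall hnn), hprod]

end Pool.Agent.W538.Tor
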