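import Pool.Agent.W538.Tor.NoIso

/-! The torus `Circle × Circle`, its universal covering and metrics induced by maps. -/

open Bundle Bornology Set MeasureTheory Manifold Filter Topology
open scoped ContDiff Manifold NNReal RealInnerProductSpace

noncomputable section
namespace Pool.Agent.W538.Tor
set_option maxSynthPendingDepth 3

section general
variable {E : Type*} [NormedAddCommGroup E] [NormedSpace ℝ E]
  {H : Type*} [TopologicalSpace H] (I : ModelWithCorners ℝ E H)
  {F : Type*} [NormedAddCommGroup F] [InnerProductSpace ℝ F]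
  {M : Type*} [TopologicalSpace M] [ChartedSpace H M]

/-- the bilinear form pulled back by a linear map. -/
def bil (A : E →L[ℝ] F) : E →L[ℝ] E →L[ℝ] ℝ := (innerSL ℝ (E := F)).bilinearComp A A

lemma bil_apply (A : E →L[ℝ] F) (v w : E) : bil A v w = inner ℝ (A v) (A w) := rfl

lemma contDiff_bil [FiniteDimensional ℝ E] : ContDiff ℝ ∞ (bil : (E →L[ℝ] F) → _) := by
  rw [contDiff_clm_apply_iff]
  intro v
  rw [contDiff_clm_apply_iff]
  intro w
  simp only [bil_apply]
  apply ContDiff.inner ℝ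
  · exact (ContinuousLinearMap.apply ℝ F v).contDiff
  · exact (ContinuousLinearMap.apply ℝ F w).contDiff

/-- the derivative of `i` at `x` as a continuous linear map. -/
def D (i : M → F) (x : M) : E →L[ℝ] F := mfderiv I 𝓘(ℝ, F) i x

/-- the pulled back inner product. -/
def pb (i : M → F) (x : M) : E →L[ℝ] E →L[ℝ] ℝ := bil (D I i x)

lemma pb_apply (i : M → F) (x : M) (v w : E) : pb I i x v w = inner ℝ (D I i x v) (D I i x w) := rfl

lemma isVonNBounded_pb [FiniteDimensional ℝ E] (i : M → F) (x : M)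
    (hinj : Function.Injective (D I i x)) :
    IsVonNBounded ℝ {v : E | pb I i x v v < 1} := by
  obtain ⟨K, hK, hA⟩ := (D I i x).toLinearMap.exists_antilipschitzWith
    (LinearMap.ker_eq_bot.2 hinj)
  rw [NormedSpace.isVonNBounded_iff]
  refine (Metric.isBounded_iff_subset_closedBall 0).2 ⟨K, ?_⟩
  intro v hv
  simp only [mem_ofPred_eq, pb_apply] at hv
  have h1 : ‖D I i x v‖ < 1 := by
    rw [real_inner_self_eq_norm_sq] at hv
    nlinarith [norm_nonneg (D I i x v)]
  have h2 := hA.le_mul_dist v 0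
  simp only [dist_zero_right, map_zero] at h2
  rw [mem_closedBall_zero_iff]
  have h3 : ‖(D I i x).toLinearMap v‖ = ‖D I i x v‖ := rfl
  rw [h3] at h2
  have : (K : ℝ) * ‖D I i x v‖ ≤ K * 1 := by gcongr
  linarith

lemma pb_pos (i : M → F) (x : M) (hinj : Function.Injective (D I i x)) (v : E)
    (hv : v ≠ 0) : 0 < pb I i x v v := by
  rw [pb_apply]
  apply real_inner_self_pos.2
  intro h
  apply hv
  apply hinj
  rw [h]
  exact (map_zero _).symm

variable [FiniteDimensional ℝ E] [IsManifold I ∞ M]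

lemma contMDiff_pb (i : M → F) (hi : ContMDiff I 𝓘(ℝ, F) ∞ i) :
    ContMDiff I (I.prod 𝓘(ℝ, E →L[ℝ] E →L[ℝ] ℝ)) ∞
    (fun b : M ↦ TotalSpace.mk' (E →L[ℝ] E →L[ℝ] ℝ)
      (E := fun b => TangentSpace I b →L[ℝ] TangentSpace I b →L[ℝ] ℝ) b (pb (E := E) I i b)) := by
  intro x
  rw [contMDiffAt_section]
  have h := ContMDiffAt.mfderiv_const (hi x) (m := ∞) (by simp)
  have h2 : ContMDiffAt I 𝓘(ℝ, E →L[ℝ] E →L[ℝ] ℝ) ∞ (fun b =>
    bil (inTangentCoordinates I 𝓘(ℝ, F) id i
      (fun x => mfderiv I 𝓘(ℝ, F) i x) x b)) x := by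
    exact contDiff_bil.contMDiff.contMDiffAt.comp x h
  refine h2.congr_of_eventuallyEq ?_
  have hx := (trivializationAt E (TangentSpace I) x).open_baseSet.mem_nhds
    (mem_baseSet_trivializationAt E (TangentSpace I) x)
  filter_upwards [hx] with y hy
  ext v w
  have hy2 : y ∈ (trivializationAt (E →L[ℝ] ℝ) (fun x : M => TangentSpace I x →L[ℝ] ℝ) x).baseSet := by
    simpa using hy
  simp [hom_trivializationAt_apply, ContinuousLinearMap.inCoordinates, inTangentCoordinates, bil_apply, Trivialization.coe_linearMapAt_of_mem _ hy2]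
  rfl

/-- The pulled back Riemannian metric. -/
def metric (i : M → F) (hi : ContMDiff I 𝓘(ℝ, F) ∞ i)
    (hinj : ∀ x, Function.Injective (D I i x)) :
    ContMDiffRiemannianMetric I ∞ E (fun x : M => TangentSpace I x) where
  inner x := pb (E := E) I i x
  symm _ _ _ := real_inner_comm _ _
  pos x v hv := pb_pos I i x (hinj x) v hv
  isVonNBounded x := isVonNBounded_pb I i x (hinj x)
  contMDiff := contMDiff_pb I i hi

end general

/-- The model with corners of the torus. -/
abbrev I2 := (𝓡 1).prod (𝓡 1)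

/-- The universal covering of the torus. -/
def cov (p : ℝ × ℝ) : T2 := (Circle.exp p.1, Circle.exp p.2)

lemma cov_surj : Function.Surjective cov := by
  rintro ⟨x, y⟩
  exact ⟨(Complex.arg x, Complex.arg y), by simp [cov]⟩

lemma contMDiff_cov : ContMDiff 𝓘(ℝ, ℝ × ℝ) I2 ∞ cov :=
  (contMDiff_circleExp.comp contDiff_fst.contMDiff).prodMk
    (contMDiff_circleExp.comp contDiff_snd.contMDiff)

/-- the derivative of the covering. -/
def dcov (p : ℝ × ℝ) : (ℝ × ℝ) →L[ℝ] (EuclideanSpace ℝ (Fin 1) × EuclideanSpace ℝ (Fin 1)) :=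
  mfderiv 𝓘(ℝ, ℝ × ℝ) I2 cov p

section
variable {F : Type*} [NormedAddCommGroup F] [NormedSpace ℝ F]

lemma contDiff_comp_cov {n : WithTop ℕ∞} (hn : n ≤ ∞) {f : T2 → F} (hf : ContMDiff I2 𝓘(ℝ, F) n f) :
    ContDiff ℝ n (f ∘ cov) := by
  rw [← contMDiff_iff_contDiff]
  exact hf.comp (contMDiff_cov.of_le hn)

lemma fderiv_comp_cov {f : T2 → F} (hf : ContMDiff I2 𝓘(ℝ, F) 1 f) (p w : ℝ × ℝ) :
    fderiv ℝ (f ∘ cov) p w = mfderiv I2 𝓘(ℝ, F) f (cov p) (dcov p w) := by
  have h := mfderiv_comp p ((hf (cov p)).mdifferentiableAt (by simp))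
    ((contMDiff_cov p).mdifferentiableAt (by simp))
  rw [mfderiv_eq_fderiv] at h
  exact congrArg (fun A => A w) h

end

end Pool.Agent.W538.Tor
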