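import Pool.Agent.W538.Tor.Meas

/-! There is no doubly periodic map inducing `b² ds² + c² (a + b cos s)² dt²` with `c < 1`. -/

open Real MeasureTheory Set Filter Topology
open scoped RealInnerProductSpace ContDiff ENNReal

noncomputable section
namespace Pool.Agent.W538.Tor

variable {a b c : ℝ} {F : ℝ × ℝ → E3}

namespace Iso
variable (h : Iso a b c F)
include h

lemma volume_cone {A : Set E3} (hA : MeasurableSet A) :
    volume (cone a b c F '' A) ≤ ∫⁻ x in A, ENNReal.ofReal (x 0 ^ 2 * |c * cos (x 1)|) := by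
  refine (addHaar_image_le_lintegral_abs_det_fderiv volume hA
    (fun x _ => (h.hasFDerivAt_cone x).hasFDerivWithinAt)).trans ?_
  simp only [h.abs_det, le_refl]

lemma volume_neg_cone {A : Set E3} (hA : MeasurableSet A) :
    volume ((fun x => - cone a b c F x) '' A) ≤
      ∫⁻ x in A, ENNReal.ofReal (x 0 ^ 2 * |c * cos (x 1)|) := by
  have e : (fun x => - cone a b c F x) '' A = Neg.neg ⁻¹' (cone a b c F '' A) := by
    ext y
    constructor
    · rintro ⟨x, hx, rfl⟩
      exact ⟨x, hx, (neg_neg _).symm⟩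
    · rintro ⟨x, hx, hxy⟩
      exact ⟨x, hx, by rw [← neg_neg y, ← hxy]⟩
  rw [e, Measure.measure_preimage_neg]
  exact h.volume_cone hA

omit h in
lemma lintegral_zero : ∫⁻ x in Reg ∩ {x | cos (x 1) = 0},
    ENNReal.ofReal (x 0 ^ 2 * |c * cos (x 1)|) = 0 := by
  rw [setLIntegral_congr_fun (g := fun _ => 0)]
  · simp
  · have h1 : Measurable (fun x : E3 => cos (x 1)) := by fun_prop
    exact measurableSet_Reg.inter (h1 (measurableSet_singleton 0))
  · intro x hx
    have : cos (x 1) = 0 := hx.2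
    simp [this]

theorem false_of_lt (h1 : ∀ p : ℝ × ℝ, F (p.1 + 2 * π, p.2) = F p)
    (h2 : ∀ p : ℝ × ℝ, F (p.1, p.2 + 2 * π) = F p) (hc1 : c < 1) : False := by
  let L : E3 → ℝ := fun x => ⟪pd (1, 0) (pd (1, 0) F) (x 1, x 2), nor a b c F (x 1, x 2)⟫
  have hL : Measurable L := by
    apply Continuous.measurable
    have hp : Continuous (fun x : E3 => (x 1, x 2)) := by fun_prop
    exact ((h.contDiff_dS (1, 0)).continuous.comp hp).inner (h.contDiff_nor.continuous.comp hp)
  let A : Set E3 := Reg ∩ {x | L x < 0}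
  let B : Set E3 := Reg ∩ {x | 0 < L x}
  let Z : Set E3 := Reg ∩ {x | cos (x 1) = 0}
  have hA : MeasurableSet A := measurableSet_Reg.inter (hL measurableSet_Iio)
  have hB : MeasurableSet B := measurableSet_Reg.inter (hL measurableSet_Ioi)
  have hZ : MeasurableSet Z := by
    have h1 : Measurable (fun x : E3 => cos (x 1)) := by fun_prop
    exact measurableSet_Reg.inter (h1 (measurableSet_singleton 0))
  have hcov : Metric.ball (0 : E3) 1 ⊆ {0} ∪ (cone a b c F '' A ∪
      ((fun x => - cone a b c F x) '' B ∪ (cone a b c F '' Z ∪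
      (fun x => - cone a b c F x) '' Z))) := by
    intro w hw
    rw [mem_ball_zero_iff] at hw
    by_cases hw0 : w = 0
    · left; exact hw0
    right
    have hwn : 0 < ‖w‖ := norm_pos_iff.2 hw0
    obtain ⟨p, hp1, hp2, hcase⟩ := h.exists_cover h1 h2 (v := ‖w‖⁻¹ • w) (by
      rw [norm_smul, norm_inv, norm_norm, inv_mul_cancel₀ hwn.ne'])
    let x : E3 := !₂[‖w‖, p.1, p.2]
    have hx : x ∈ Reg := ⟨⟨hwn, hw⟩, hp1, hp2⟩
    have hxp : (x 1, x 2) = p := rfl
    have hwe : w = ‖w‖ • (‖w‖⁻¹ • w) := by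
      rw [smul_smul, mul_inv_cancel₀ hwn.ne', one_smul]
    have hcx : cone a b c F x = ‖w‖ • nor a b c F p := rfl
    rcases hcase with ⟨h3, h4⟩ | ⟨h3, h4⟩ | ⟨h3, h4⟩ | ⟨h3, h4⟩
    · left
      refine ⟨x, ⟨hx, h4⟩, ?_⟩
      rw [hcx, ← h3, ← hwe]
    · right; left
      refine ⟨x, ⟨hx, h4⟩, ?_⟩
      simp only
      rw [hcx, ← smul_neg, ← h3, ← hwe]
    · right; right; left
      refine ⟨x, ⟨hx, h4⟩, ?_⟩
      rw [hcx, ← h3, ← hwe]
    · right; right; right
      refine ⟨x, ⟨hx, h4⟩, ?_⟩
      simp only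
      rw [hcx, ← smul_neg, ← h3, ← hwe]
  have hvol := measure_mono (μ := volume) hcov
  rw [EuclideanSpace.volume_ball_fin_three] at hvol
  have hle : volume ({0} ∪ (cone a b c F '' A ∪
      ((fun x => - cone a b c F x) '' B ∪ (cone a b c F '' Z ∪
      (fun x => - cone a b c F x) '' Z)))) ≤ ENNReal.ofReal (c * (π * 4 / 3)) := by
    refine (measure_union_le _ _).trans ?_
    rw [measure_singleton, zero_add]
    refine (measure_union_le _ _).trans ?_
    refine (add_le_add (h.volume_cone hA) ((measure_union_le _ _).trans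
      (add_le_add (h.volume_neg_cone hB) ((measure_union_le _ _).trans
      (add_le_add (h.volume_cone hZ) (h.volume_neg_cone hZ)))))).trans ?_
    rw [lintegral_zero, add_zero, add_zero, ← lintegral_union hB]
    · rw [← lintegral_Reg h.c_pos]
      exact lintegral_mono_set (union_subset inter_subset_left inter_subset_left)
    · rw [Set.disjoint_left]
      rintro x ⟨_, h3⟩ ⟨_, h4⟩
      exact lt_asymm (show L x < 0 from h3) (show 0 < L x from h4)
  have := hvol.trans hle
  rw [ENNReal.ofReal_one, one_pow, one_mul, ENNReal.ofReal_le_ofReal_iff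
    (mul_nonneg h.c_pos.le (by positivity))] at this
  nlinarith [Real.pi_pos]

end Iso

end Pool.Agent.W538.Tor
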